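import Mathlib

/-!
The algebra `H^∞(R)` of bounded holomorphic functions on a Riemann surface, its maximal ideal
space and the natural embedding by point evaluations; boundary curves of coordinate discs.
-/

set_option autoImplicit false

open scoped Manifold
open Metric

namespace Pool.Agent.MP_9ef1f5_an

variable (R : Type) [TopologicalSpace R]

/-- `R` is a Riemann surface: a connected, Hausdorff, second countable complex manifold of
dimension one. -/
structure IsRiemannSurface [ChartedSpace ℂ R] : Prop where
  hausdorff : T2Space R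
  secondCountable : SecondCountableTopology R
  connected : ConnectedSpace R
  manifold : IsManifold 𝓘(ℂ) ⊤ R

/-- `H^∞(R)`: the bounded holomorphic functions on `R`. -/
def HInf [ChartedSpace ℂ R] : Type :=
  {f : R → ℂ // MDifferentiable 𝓘(ℂ) 𝓘(ℂ) f ∧ ∃ C : ℝ, ∀ x, ‖f x‖ ≤ C}

variable {R} [ChartedSpace ℂ R]

/-- The value of `f ∈ H^∞(R)` at `x`. -/
def HInf.at (f : HInf R) (x : R) : ℂ := f.1 x

/-- `φ` is a nonzero multiplicative linear functional on `H^∞(R)`. -/
structure IsCharacter (φ : HInf R → ℂ) : Prop where
  ne_zero : ∃ f : HInf R, φ f ≠ 0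
  add : ∀ f g h : HInf R, (∀ x, h.at x = f.at x + g.at x) → φ h = φ f + φ g
  smul : ∀ (c : ℂ) (f h : HInf R), (∀ x, h.at x = c * f.at x) → φ h = c * φ f
  mul : ∀ f g h : HInf R, (∀ x, h.at x = f.at x * g.at x) → φ h = φ f * φ g

variable (R)

/-- The maximal ideal space `𝓜(R)` of `H^∞(R)`: the nonzero multiplicative linear functionals on
`H^∞(R)`, as a subspace of the space of all functions `H^∞(R) → ℂ` with the topology of pointwise
convergence (which is the Gelfand (weak-star) topology on `𝓜(R)`). -/
def MaxIdealSpace : Type := {φ : HInf R → ℂ // IsCharacter φ}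

instance : TopologicalSpace (MaxIdealSpace R) :=
  inferInstanceAs (TopologicalSpace {φ : HInf R → ℂ // IsCharacter φ})

variable {R}

/-- The constant function `1`. -/
def HInf.one : HInf R := ⟨fun _ => 1, mdifferentiable_const, 1, fun _ => by simp⟩

lemma isCharacter_eval (p : R) : IsCharacter (fun f : HInf R => f.at p) where
  ne_zero := ⟨HInf.one, one_ne_zero⟩
  add := fun _ _ _ h => h p
  smul := fun _ _ _ h => h p
  mul := fun _ _ _ h => h p

/-- The natural embedding `ι : R → 𝓜(R)`: `ι p` is the evaluation `f ↦ f p`. -/
def iota (p : R) : MaxIdealSpace R := ⟨fun f => f.at p, isCharacter_eval p⟩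

variable (R)

/-- Bounded holomorphic functions separate the points of `R`. -/
def SeparatesPts : Prop :=
  ∀ p q : R, p ≠ q → ∃ f : HInf R, f.at p ≠ f.at q

variable {R}

/-- `γ` is the boundary circle of the closed disc of radius `1/3` in the chart `e` of `R`. -/
structure IsDiscBoundary (e : OpenPartialHomeomorph R ℂ) (γ : Circle → R) : Prop where
  chart : e ∈ atlas ℂ R
  disc : closedBall (0 : ℂ) (1 / 3) ⊆ e.target
  curve : ∀ t : Circle, γ t = e.symm ((t : ℂ) / 3)

omit [ChartedSpace ℂ R]

/-- The open disc of radius `1/3` in the chart `e`. -/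
def inside (e : OpenPartialHomeomorph R ℂ) : Set R := e.symm '' ball (0 : ℂ) (1 / 3)

/-- The complement of the closed disc of radius `1/3` in the chart `e`. -/
def outside (e : OpenPartialHomeomorph R ℂ) : Set R := (e.symm '' closedBall (0 : ℂ) (1 / 3))ᶜ

/-- The complement of the set `Γ` is the union of the disjoint connected open sets `U` and `V`. -/
structure CutsInto (Γ U V : Set R) : Prop where
  compl : Γᶜ = U ∪ V
  disjoint : Disjoint U V
  openU : IsOpen U
  openV : IsOpen V
  connU : IsConnected U
  connV : IsConnected V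

end Pool.Agent.MP_9ef1f5_an
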