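import Mathlib
import Pool.Agent.Lib.MP_9ef1f5_an_helper27.Algebra
import Pool.Agent.Lib.MP_9ef1f5_an_helper32.Instance
import Pool.Agent.Lib.MP_9ef1f5_an_companion.Defs

/-!
The counterexample of `S05582` with further properties: second countable surface, the curve bounds a
coordinate disc, the natural embedding is not a topological embedding.
-/

set_option autoImplicit false

open scoped Manifold BoundedContinuousFunction
open Set Filter WeakDual Metric Topology

namespace Pool.Agent.MP_9ef1f5_an.Companion

open Pool.Agent.H27 Pool.Agent.MP_9ef1f5_an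

variable {D : CoverData}

lemma isCharacter_iff (φ : HB D → ℂ) : IsCharacter (R := Surf D) φ ↔ φ ∈ MM D := by
  constructor
  · intro h
    refine ⟨?_, ?_, ?_, ?_⟩
    · intro u hu
      obtain ⟨f, hf⟩ := h.ne_zero
      have h1 : φ f = φ f * φ u := h.mul f u f (fun x => by
        change f.1 x = f.1 x * u.1 x
        rw [hu, mul_one])
      exact (mul_left_cancel₀ hf (by rw [mul_one]; exact h1)).symm
    · intro f g k hk
      exact h.add f g k (fun x => congrFun hk x)
    · intro f g k hk
      exact h.mul f g k (fun x => congrFun hk x)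
    · intro c f k hk
      exact h.smul c f k (fun x => congrFun hk x)
  · rintro ⟨h1, h2, h3, h4⟩
    refine ⟨⟨HInf.one, ?_⟩, ?_, ?_, ?_⟩
    · rw [h1 HInf.one rfl]
      exact one_ne_zero
    · intro f g k hk
      exact h2 f g k (funext hk)
    · intro c f k hk
      exact h4 c f k (funext hk)
    · intro f g k hk
      exact h3 f g k (funext hk)

/-- The inclusion of the maximal ideal space into the space of all functions. -/
def incl (Φ : MaxIdealSpace (Surf D)) : HB D → ℂ := Φ.1

lemma isInducing_incl : IsInducing (incl (D := D)) := IsInducing.subtypeVal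

lemma incl_injective : Function.Injective (incl (D := D)) := fun _ _ h => Subtype.ext h

lemma incl_iota (x : Surf D) : incl (iota x) = jM (ev x) := by
  rw [jM_ev]
  rfl

lemma image_compl : incl '' (iota '' range (gam D) : Set (MaxIdealSpace (Surf D)))ᶜ =
    MM D \ KM D := by
  have hiff : ∀ Φ : MaxIdealSpace (Surf D), incl Φ ∈ KM D ↔ Φ ∈ iota '' range (gam D) := by
    intro Φ
    constructor
    · rintro ⟨t, ht⟩
      refine ⟨gam D t, ⟨t, rfl⟩, ?_⟩
      apply incl_injective
      funext f
      exact (ht f).symm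
    · rintro ⟨_, ⟨t, rfl⟩, rfl⟩
      exact ⟨t, fun f => rfl⟩
  ext φ
  constructor
  · rintro ⟨Φ, hΦ, rfl⟩
    exact ⟨(isCharacter_iff _).1 Φ.2, fun h => hΦ ((hiff Φ).1 h)⟩
  · rintro ⟨h1, h2⟩
    refine ⟨⟨φ, (isCharacter_iff φ).2 h1⟩, ?_, rfl⟩
    intro h
    exact h2 ((hiff _).2 h)

lemma isConnected_compl_image :
    IsConnected (iota '' range (gam D) : Set (MaxIdealSpace (Surf D)))ᶜ := by
  have himg := image_compl (D := D)
  refine ⟨?_, ?_⟩
  · have h1 : jM (ev (bb D 0)) ∈ MM D \ KM D := by
      refine ⟨jM_mem _, ?_⟩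
      rw [jM_mem_KM_iff]
      apply ev_notMem_KK
      have h1 : bb D 0 ∈ (range (gam D))ᶜ := by
        rw [compl_range_gam]; exact Or.inl base_mem_R1
      exact h1
    rw [← himg] at h1
    obtain ⟨Φ, hΦ, -⟩ := h1
    exact ⟨Φ, hΦ⟩
  · have h := isPreconnected_final (D := D)
    rw [← himg] at h
    exact isInducing_incl.isPreconnected_image.1 h

lemma continuous_iota : Continuous (iota : Surf D → MaxIdealSpace (Surf D)) := by
  rw [isInducing_incl.continuous_iff]
  have h : (incl ∘ iota : Surf D → HB D → ℂ) = fun x => jM (ev x) := funext incl_iota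
  rw [h]
  exact continuous_jM.comp continuous_ev

lemma separatesPts : SeparatesPts (Surf D) := by
  intro p q hpq
  obtain ⟨f, hf1, hf2, hf3⟩ := separates p q hpq
  exact ⟨⟨f, hf1, hf2⟩, hf3⟩

lemma injective_iota : Function.Injective (iota : Surf D → MaxIdealSpace (Surf D)) := by
  intro p q h
  by_contra hne
  obtain ⟨f, hf⟩ := separatesPts p q hne
  exact hf (congrFun (congrArg incl h) f)

lemma not_isEmbedding_iota : ¬ IsEmbedding (iota : Surf D → MaxIdealSpace (Surf D)) := by
  intro h
  have h1 : Tendsto (fun k => iota (qk D k)) atTop (𝓝 (iota (bb D 0))) := by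
    rw [isInducing_incl.tendsto_nhds_iff]
    have h2 := tendsto_qk (D := D)
    rw [← incl_iota] at h2
    refine h2.congr fun k => ?_
    exact (incl_iota _).symm
  have h2 : Tendsto (fun k => qk D k) atTop (𝓝 (bb D 0)) := by
    rw [h.isInducing.tendsto_nhds_iff]
    exact h1
  obtain ⟨k, hk⟩ := (h2.eventually (isOpen_R1.mem_nhds base_mem_R1)).exists
  exact (Set.disjoint_left.1 disjoint_R1_R2) hk (qk_mem_R2 k)

lemma isConnected_R1 : IsConnected (R1 D) := ⟨⟨_, base_mem_R1⟩, isPreconnected_R1⟩

lemma isConnected_R2 : IsConnected (R2 D) := ⟨⟨_, qk_mem_R2 0⟩, isPreconnected_R2⟩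

end Pool.Agent.MP_9ef1f5_an.Companion
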