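import Mathlib
import Pool.Agent.Lib.MP_9ef1f5_an_helper27.Surface2

/-!
The surface of the counterexample is second countable.
-/

set_option autoImplicit false

open scoped Manifold Topology
open Set Filter Metric TopologicalSpace

namespace Pool.Agent.MP_9ef1f5_an.Companion

open Pool.Agent.H27

variable {D : CoverData}

/-- The square root of `P k q` with the given sign. -/
noncomputable def sgn (D : CoverData) (k : ℕ) (q : ℂ) (b : Bool) : ℂ :=
  if b = true then sq D k q else -sq D k q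

lemma sgn_sq (k : ℕ) (q : ℂ) (b : Bool) : sgn D k q b ^ 2 = D.P k q := by
  unfold sgn
  cases b with
  | true => simpa using sq_sq (D := D) k q
  | false => simpa using sq_sq (D := D) k q

lemma exists_cover (x : Surf D) (Q : Set ℂ) (hQ : Dense Q) :
    ∃ (k : ℕ) (q : ℂ) (_ : q ∈ Q) (b : Bool) (h : D.P k q ≠ 0),
      x ∈ (locSec k q (sgn D k q b) h (sgn_sq k q b)).chart.source := by
  obtain ⟨k, hk⟩ := x.mem
  have hVo : IsOpen (Om D k ∩ (fun q => D.P k x.z / D.P k q) ⁻¹' Complex.slitPlane) := by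
    refine ContinuousOn.isOpen_inter_preimage ?_ (isOpen_Om k) Complex.isOpen_slitPlane
    refine ContinuousOn.div continuousOn_const ?_ (fun q hq => hq.2)
    exact (D.P_diff k k).continuousOn.mono inter_subset_left
  have hx : x.z ∈ Om D k ∩ (fun q => D.P k x.z / D.P k q) ⁻¹' Complex.slitPlane := by
    refine ⟨⟨hk.1, hk.2.1⟩, ?_⟩
    simp only [mem_preimage, div_self hk.2.1]
    exact Complex.one_mem_slitPlane
  obtain ⟨q, hqV, hqQ⟩ := hQ.inter_open_nonempty _ hVo ⟨x.z, hx⟩
  have hP : D.P k q ≠ 0 := hqV.1.2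
  have hdom : x.z ∈ dom D k q := ⟨hk.1, hqV.2⟩
  have hrt : ∀ b : Bool, rt D k q (sgn D k q b) x.z ^ 2 = D.P k x.z := fun b =>
    rt_sq (sgn_sq k q b) hP x.z
  obtain ⟨b, hb⟩ : ∃ b : Bool, x.w k = rt D k q (sgn D k q b) x.z := by
    rcases eq_or_neg hk.2.2.1 (hrt true) with h | h
    · exact ⟨true, h⟩
    · refine ⟨false, ?_⟩
      rw [h]
      simp only [sgn, if_true, Bool.false_eq_true, if_false]
      rw [rt_neg]
  refine ⟨k, q, hqQ, b, hP, ?_⟩
  refine ⟨hdom, ?_⟩
  funext i
  change x.w i = if i = k then rt D k q (sgn D k q b) x.z else D.s i x.z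
  by_cases hi : i = k
  · rw [if_pos hi, ← hb, hi]
  · rw [if_neg hi]
    exact hk.2.2.2 i hi

instance secondCountable : SecondCountableTopology (Surf D) := by
  classical
  obtain ⟨Q, hQc, hQd⟩ := TopologicalSpace.exists_countable_dense ℂ
  have := hQc.to_subtype
  let ι : Type := {p : ℕ × Q × Bool // D.P p.1 (p.2.1 : ℂ) ≠ 0}
  let e : ι → OpenPartialHomeomorph (Surf D) ℂ := fun p =>
    (locSec p.1.1 (p.1.2.1 : ℂ) (sgn D p.1.1 (p.1.2.1 : ℂ) p.1.2.2) p.2
      (sgn_sq p.1.1 (p.1.2.1 : ℂ) p.1.2.2)).chart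
  have : ∀ i : ι, SecondCountableTopology (e i).source := fun i =>
    (e i).secondCountableTopology_source
  refine secondCountableTopology_of_countable_cover (U := fun i : ι => (e i).source)
    (fun i => (e i).open_source) ?_
  rw [eq_univ_iff_forall]
  intro x
  obtain ⟨k, q, hq, b, h, hx⟩ := exists_cover x Q hQd
  exact mem_iUnion.2 ⟨⟨(k, ⟨q, hq⟩, b), h⟩, hx⟩

end Pool.Agent.MP_9ef1f5_an.Companion
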